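import Pool.Agent.Lib_MP_85471b_kf.Part2c

/-!
# Odd-hole-free graphs without tailed odd wheels in the complement are perfectly divisible

Hoang asked whether every odd-hole-free graph is perfectly divisible. We prove it (with vertex
weights) for all odd-hole-free graphs whose complement has no tailed odd wheel, and deduce it for
the odd-hole-free graphs without an induced kite (and, by the same theorem, without an induced
claw, fork, dart, banner or bull).
-/

namespace Pool.Agent.Results.MP_85471b_co.TailedOddWheel

open Pool.Agent.PerfDiv SimpleGraph

universe u

/-- Let `G` be a graph without odd holes. If the complement of `G` has no tailed odd wheel, then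
`G` is weight divisible. In particular this holds if one of the kite, claw, fork, dart, banner,
bull is not an induced subgraph of `G`. -/
theorem result {V : Type u} (G : SimpleGraph V) (hG : OddHoleFree G) :
    (¬ TailedOddWheel Gᶜ → WeightDivisible G) ∧
      (IsEmpty (kite ↪g G) ∨ IsEmpty (claw ↪g G) ∨ IsEmpty (fork ↪g G) ∨ IsEmpty (dart ↪g G) ∨
        IsEmpty (banner ↪g G) ∨ IsEmpty (bull ↪g G) → WeightDivisible G) := by
  refine ⟨weightDivisible_of_noWheel hG, fun h => weightDivisible_of_noWheel hG fun hT => ?_⟩
  obtain ⟨h1, h2, h3, h4, h5, h6⟩ := six_of_wheel hG hT
  rcases h with h | h | h | h | h | h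
  · exact h.elim h3.some
  · exact h.elim h1.some
  · exact h.elim h2.some
  · exact h.elim h4.some
  · exact h.elim h5.some
  · exact h.elim h6.some

end Pool.Agent.Results.MP_85471b_co.TailedOddWheel
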